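import Mathlib

set_option autoImplicit false

namespace Pool.Agent.Results.MP_555c3f_al.Yes

open Matrix

/-- Equations of `W_n`: `inl i` is `x_i = 1` and `inr (i, j, k)` is `x_i + x_j = x_k`. -/
def Holds {n : ℕ} (x : Fin n → ℂ) : Fin n ⊕ Fin n × Fin n × Fin n → Prop
  | .inl i => x i = 1
  | .inr (i, j, k) => x i + x j = x k

def e {n : ℕ} (a : Option (Fin n)) (j : Fin n) : ℤ := if a = some j then 1 else 0

/-- network vectors -/
def Net {n : ℕ} (v : Fin n → ℤ) : Prop := ∃ a b, v = e a - e b

lemma e_succ {n : ℕ} (a : Option (Fin (n + 1))) (j : Fin (n + 1)) :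
    ∃ a', e a ∘ j.succAbove = e a' := by
  by_cases h : ∃ k, a = some (j.succAbove k)
  · obtain ⟨k, rfl⟩ := h
    exact ⟨some k, funext fun l => by simp [e]⟩
  · exact ⟨none, funext fun l => by simp [e, not_exists.1 h l]⟩

lemma net (n : ℕ) : ∀ A : Matrix (Fin n) (Fin n) ℤ, (∀ i, Net (A i)) → |A.det| ≤ 1 := by
  induction n with
  | zero => simp
  | succ n ih =>
    intro A h
    have minor : ∀ i j : Fin (n + 1), |(A.submatrix i.succAbove j.succAbove).det| ≤ 1 := fun i j =>
      ih _ fun k => by
        obtain ⟨a, b, h⟩ := h (i.succAbove k)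
        obtain ⟨a', ha⟩ := e_succ a j
        obtain ⟨b', hb⟩ := e_succ b j
        exact ⟨a', b', by rw [← ha, ← hb]; ext l; simp [h]⟩
    choose a b h using h
    by_cases k : ∃ i, a i = none ∨ b i = none
    · obtain ⟨i, k⟩ := k
      obtain ⟨c, hc⟩ : ∃ c, ∀ j, |A i j| = e c j := by
        rcases k with k | k
        · exact ⟨b i, fun j => by simp [h, k, e]; split_ifs <;> simp⟩
        · exact ⟨a i, fun j => by simp [h, k, e]; split_ifs <;> simp⟩
      rw [det_succ_row A i]
      refine (Finset.abs_sum_le_sum_abs _ _).trans ((Finset.sum_le_sum (g := e c)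
        fun j _ => ?_).trans ?_)
      · rw [abs_mul, abs_mul, abs_neg_one_pow, one_mul, ← hc]
        exact mul_le_of_le_one_right (abs_nonneg _) (minor i j)
      · cases c <;> simp [e]
    · have : A.det = 0 := exists_mulVec_eq_zero_iff.1 ⟨1, one_ne_zero, funext fun i => by
        push Not at k
        obtain ⟨x, hx⟩ := Option.ne_none_iff_exists'.1 (k i).1
        obtain ⟨y, hy⟩ := Option.ne_none_iff_exists'.1 (k i).2
        simp [mulVec, dotProduct, h, hx, hy, e]⟩
      simp [this]

lemma two {n : ℕ} (s : Finset (Fin n)) : ∀ A : Matrix (Fin n) (Fin n) ℤ, (∀ i ∉ s, Net (A i)) →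
    (∀ i ∈ s, ∃ u v, Net u ∧ Net v ∧ A i = u + v) → |A.det| ≤ 2 ^ s.card := by
  induction s using Finset.induction with
  | empty => exact fun A h _ => net n A fun i => h i (by simp)
  | insert i s hi ih =>
    intro A h k
    obtain ⟨u, v, hu, hv, e⟩ := k i (by simp)
    have : ∀ u, Net u → |(A.updateRow i u).det| ≤ 2 ^ s.card := fun u hu => ih _
      (fun j hj => by
        by_cases e : j = i
        · simpa [e]
        · rw [updateRow_ne e]; exact h j (by simp [e, hj]))
      fun j hj => by
        rw [updateRow_ne (by rintro rfl; exact hi hj)]; exact k j (by simp [hj])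
    rw [← updateRow_eq_self A i, e, det_updateRow_add, Finset.card_insert_of_notMem hi, pow_succ]
    linarith [abs_add_le (A.updateRow i u).det (A.updateRow i v).det, this u hu, this v hv]

lemma pick {n : ℕ} (T : Set (Fin n → ℤ)) (w : Fin n → ℤ) (i0 : Fin n) (hw : w ≠ 0)
    (h : ∀ y : Fin n → ℂ, (∀ v ∈ insert w T, (fun j => (v j : ℂ)) ⬝ᵥ y = 0) → y = 0) :
    ∃ A : Matrix (Fin n) (Fin n) ℤ, A i0 = w ∧ (∀ i ≠ i0, A i ∈ T) ∧ A.det ≠ 0 := by
  classical
  let c : (Fin n → ℤ) → Fin n → ℂ := fun v j => v j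
  have ci : Function.Injective c := fun u v e => funext fun j => by
    simpa [c] using congrFun e j
  have sp : ⊤ ≤ Submodule.span ℂ (c '' insert w T) := fun x _ => by
    by_contra hx
    obtain ⟨L, h1, h2⟩ := Submodule.exists_dual_map_eq_bot_of_notMem hx inferInstance
    have e : ∀ v, L v = v ⬝ᵥ fun j => L (Pi.single j 1) := fun v => by
      rw [LinearMap.pi_apply_eq_sum_univ]
      refine Finset.sum_congr rfl fun j _ => ?_
      rw [smul_eq_mul]; congr 2; ext k; simp [Pi.single_apply, eq_comm]
    have := h (fun j => L (Pi.single j 1)) fun v hv => (e _).symm.trans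
      ((Submodule.eq_bot_iff _).1 h2 _ ⟨_, Submodule.subset_span ⟨v, hv, rfl⟩, rfl⟩)
    exact h1 (by rw [e, this]; simp)
  have li : LinearIndepOn ℂ id {c w} := LinearIndepOn.singleton fun e => hw (ci (by
    rw [show c w = 0 from e]; ext; simp [c]))
  have hs : {c w} ⊆ c '' insert w T := by rintro _ rfl; exact ⟨w, by simp, rfl⟩
  let b := Module.Basis.extendLe li hs sp
  have := Module.Finite.finite_basis b
  have := Fintype.ofFinite (li.extend hs)
  let f0 : Fin n ≃ li.extend hs := (Fintype.equivFinOfCardEq (by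
    rw [← Module.finrank_eq_card_basis b]; simp)).symm
  let w' : li.extend hs := ⟨c w, li.subset_extend hs rfl⟩
  let f := (Equiv.swap i0 (f0.symm w')).trans f0
  have f1 : f i0 = w' := by simp [f]
  choose A h1 h2 using fun i => li.extend_subset hs (f i).2
  refine ⟨A, ci (by rw [h2, f1]), fun i hi => (h1 i).resolve_left fun e => hi (f.injective
    (Subtype.ext (by rw [← h2, e, f1]))), fun e => ?_⟩
  have := (linearIndependent_rows_iff_isUnit (A := (Int.castRingHom ℂ).mapMatrix A)).1 (by
    have : row ((Int.castRingHom ℂ).mapMatrix A) = b.reindex f.symm := by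
      ext i j
      simpa [b, c] using congrFun (h2 i) j
    rw [this]; exact Module.Basis.linearIndependent _)
  rw [isUnit_iff_isUnit_det, ← RingHom.map_det] at this
  simp [show det (A : Matrix _ _ ℤ) = 0 from e] at this

theorem result (n : ℕ) (S : Set (Fin n ⊕ Fin n × Fin n × Fin n)) (x : Fin n → ℂ)
    (hx : ∀ y, (∀ s ∈ S, Holds y s) ↔ y = x) (i : Fin n) :
    ∃ r : ℚ, x i = r ∧ |r.num| ≤ 2 ^ (n - 1) ∧ r.den ≤ 2 ^ (n - 1) := by
  have hs := (hx x).2 rfl
  by_cases h1 : ∃ i0, x i0 = 1
  swap
  · have := (hx 0).1 (by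
      rintro (j | ⟨j, k, l⟩) h
      · exact (h1 ⟨j, hs _ h⟩).elim
      · simp [Holds])
    exact ⟨0, by simp [← this], by simp, Nat.one_le_two_pow⟩
  obtain ⟨i0, h0⟩ := h1
  have es : ∀ (y : Fin n → ℂ) a, ∑ j, (e (some a) j : ℂ) * y j = y a := fun y a => by simp [e]
  have en : e (none : Option (Fin n)) = 0 := by ext; simp [e]
  obtain ⟨A, a1, a2, a3⟩ := pick {v | (∃ u w, Net u ∧ Net w ∧ v = u + w) ∧
    (fun j => (v j : ℂ)) ⬝ᵥ x = 0} (e (some i0)) i0 (fun h => by simpa [e] using congrFun h i0)
    fun y hy => by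
      have y0 : y i0 = 0 := by simpa [dotProduct, es] using hy _ (.inl rfl)
      have := (hx (x + y)).1 (by
        rintro (j | ⟨j, k, l⟩) h
        · have h2 : x j = 1 := hs _ h
          have := hy (e (some j) - e (some i0) + (e none - e none)) (.inr ⟨⟨_, _, ⟨_, _, rfl⟩,
            ⟨_, _, rfl⟩, rfl⟩, by simp [dotProduct, sub_mul, es, h0, h2]⟩)
          simpa [Holds, dotProduct, sub_mul, es, h2, y0] using this
        · have h2 : x j + x k = x l := hs _ h
          have := hy (e (some j) - e (some l) + (e (some k) - e none)) (.inr ⟨⟨_, _, ⟨_, _, rfl⟩,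
            ⟨_, _, rfl⟩, rfl⟩, by
              simp [dotProduct, sub_mul, add_mul, Finset.sum_add_distrib, es, en, ← h2]⟩)
          simp [dotProduct, sub_mul, add_mul, Finset.sum_add_distrib, es, en] at this
          show x j + y j + (x k + y k) = x l + y l
          linear_combination h2 + this)
      simpa using this
  have bd : ∀ j, |(A.updateRow i0 (e (some j))).det| ≤ 2 ^ (n - 1) := fun j => by
    simpa [Finset.card_erase_of_mem] using two (Finset.univ.erase i0) (A.updateRow i0 (e (some j)))
      (fun k hk => by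
        obtain rfl : k = i0 := by simpa using hk
        exact ⟨some j, none, by simp [en]⟩)
      fun k hk => by
        have : k ≠ i0 := by simpa using hk
        rw [updateRow_ne this]; exact (a2 k this).1
  have b1 := bd i0
  rw [← a1, updateRow_eq_self] at b1
  have m : (Int.castRingHom ℂ).mapMatrix A *ᵥ x = Pi.single i0 1 := funext fun k => by
    by_cases hk : k = i0
    · simp [hk, mulVec, dotProduct, a1, es, h0]
    · simpa [hk, mulVec] using (a2 k hk).2
  have m2 := congrFun (congrArg ((Int.castRingHom ℂ).mapMatrix A.adjugate *ᵥ ·) m) i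
  simp only [mulVec_mulVec, ← map_mul, adjugate_mul] at m2
  have e1 : Pi.single i 1 = e (some i) := by ext j; simp [e, Pi.single_apply, eq_comm]
  have m3 : (A.det : ℂ) * x i = (A.updateRow i0 (e (some i))).det := by
    rw [← e1, ← adjugate_apply]
    simpa [smul_eq_diagonal_mul, mulVec_diagonal] using m2
  have b2 := bd i
  generalize (A.updateRow i0 (e (some i))).det = p at m3 b2
  generalize A.det = q at *
  refine ⟨p / q, by push_cast; rw [eq_div_iff (by simpa), mul_comm, m3], ?_, ?_⟩
  · by_cases hp : p = 0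
    · simp [hp]
    rw [← Rat.divInt_eq_div]
    exact (Int.le_of_dvd (abs_pos.2 hp) (by simpa using Rat.num_dvd p a3)).trans b2
  · rw [← Rat.divInt_eq_div]
    have : ((Rat.divInt p q).den : ℤ) ≤ 2 ^ (n - 1) :=
      (Int.le_of_dvd (abs_pos.2 a3) (by simpa using Rat.den_dvd p q)).trans b1
    exact_mod_cast this

end Pool.Agent.Results.MP_555c3f_al.Yes
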